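import Mathlib
import Pool.Agent.Helper97.RK.Stmts
import Pool.Agent.Helper17.RS.Sheet

/-! # Statements for `N_10(H) ≥ c H ^ (1/9)` (MP_798d7d_nt)

FAMILY.  `f = ∏_{i < 8} (x - x_i)`, `x_i = a_i U + b_i V`, `∑ x_i = 0`,
`G = 2 x⁴ + e2 x² - e3 x + g0` (`g0 = e4 - e2² / 4`), so that `G² - 4 f` has degree 3.  The quartic
`y² = (G + z²)² - 4 f` has the leading coefficient `(2 z)²` and the points `(x_i, G (x_i) + z²)`;
with `τ = z²` its coefficients are `q4, .., q0` below.  For the two splits `S = {0,2,3,4}`, `{0,5,6,7}`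
one has `f_S + f_S* - G = (σ x + c)²` identically in `U, V, x`, hence the further rational points
`x = (z - c) / σ`, `y = f_S* - f_S`.  The weights are `U, V : 1`, `z : 2`, `A = - I / 48 : 12`,
`B = - J / 1728 : 18` (of degrees 3 and 4 in `τ`).  `m⁴` members of height `∼ m³⁶`.
Everything below is checked by computer (identities at random points, certificate, matrices).
-/

set_option autoImplicit false

namespace Pool.Helper70.RT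

open Pool.Agent.Helper97.RK (cur)
open Pool.Helper17.RS (RS NR ST_GEN)
open Polynomial

section
variable {R : Type*} [CommRing R]

/-- the abscissas `x_0, .., x_7` -/
def xx (U V : R) : Fin 8 → R :=
  ![-6 * U - 19 * V, 16 * U - 27 * V, -5 * U + 67 * V, 11 * U + 55 * V, 2 * U - 19 * V,
    -16 * U + V, 3 * U - 25 * V, -5 * U - 33 * V]

def e2 (U V : R) : R := -366 * U ^ 2 + 12 * U * V - 5340 * V ^ 2
def e3 (U V : R) : R := 300 * U ^ 3 - 136 * U ^ 2 * V + 17464 * U * V ^ 2 + 127392 * V ^ 3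
def g0 (U V : R) : R :=
  -3600 * U ^ 4 + 40260 * U ^ 3 * V - 91374 * U ^ 2 * V ^ 2 - 203652 * U * V ^ 3 - 788694 * V ^ 4
def h3 (U V : R) : R :=
  -101760 * U ^ 5 - 3510784 * U ^ 4 * V + 34030688 * U ^ 3 * V ^ 2 + 79008256 * U ^ 2 * V ^ 3 -
    170956928 * U * V ^ 4 + 67619328 * V ^ 5
def h2 (U V : R) : R :=
  4535296 * U ^ 6 - 50624256 * U ^ 5 * V + 129233472 * U ^ 4 * V ^ 2 +
    1707932096 * U ^ 3 * V ^ 3 + 5598163008 * U ^ 2 * V ^ 4 - 11334617088 * U * V ^ 5 +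
    4694354176 * V ^ 6
def h1 (U V : R) : R :=
  5784960 * U ^ 7 - 26871424 * U ^ 6 * V - 893176416 * U ^ 5 * V ^ 2 +
    314499616 * U ^ 4 * V ^ 3 + 46173836384 * U ^ 3 * V ^ 4 + 106997185152 * U ^ 2 * V ^ 5 -
    237460178048 * U * V ^ 6 + 103693595136 * V ^ 7
def h0 (U V : R) : R :=
  2822400 * U ^ 8 - 105198720 * U ^ 7 * V + 2729107264 * U ^ 6 * V ^ 2 -
    23024181984 * U ^ 5 * V ^ 3 - 7559713232 * U ^ 4 * V ^ 4 + 442707061248 * U ^ 3 * V ^ 5 +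
    583358372032 * U ^ 2 * V ^ 6 - 1601906060544 * U * V ^ 7 + 740566619136 * V ^ 8

/-- the quartic, `t = z²` -/
def q4 (t : R) : R := 4 * t
def q3 (U V : R) : R := h3 U V
def q2 (U V t : R) : R := 2 * e2 U V * t + h2 U V
def q1 (U V t : R) : R := -2 * e3 U V * t + h1 U V
def q0 (U V t : R) : R := t ^ 2 + 2 * g0 U V * t + h0 U V

/-- the invariants: in `t` of degree 3 with leading coefficient `48`, and of degree 4 with leading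
coefficient `576 * e2 U V` -/
def fI (U V t : R) : R := 12 * q4 t * q0 U V t - 3 * q3 U V * q1 U V t + q2 U V t ^ 2
def fJ (U V t : R) : R :=
  72 * q4 t * q2 U V t * q0 U V t + 9 * q3 U V * q2 U V t * q1 U V t -
    27 * q4 t * q1 U V t ^ 2 - 27 * q0 U V t * q3 U V ^ 2 - 2 * q2 U V t ^ 3

/-- the ordinate at `x` (one of the `x_i`) -/
def yv (U V t x : R) : R := 2 * x ^ 4 + e2 U V * x ^ 2 - e3 U V * x + g0 U V + t

/-- twelve times the abscissa (times `ζ²`) belonging to the point `(η / ζ, w / ζ²)` and the point at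
infinity with `√q4 = 2 z` -/
def xN (U V z η ζ w : R) : R :=
  6 * q4 (z ^ 2) * η ^ 2 + 3 * q3 U V * η * ζ + q2 U V (z ^ 2) * ζ ^ 2 + 12 * z * w

/-- the two splits -/
def s1 (U V : R) : R := 2 * U + 84 * V
def c1 (U V : R) : R := -90 * U ^ 2 + 352 * U * V + 1448 * V ^ 2
def w1 (U V η : R) : R :=
  2 * η ^ 3 + 2 * c1 U V * η ^ 2 +
    (-364 * U ^ 3 - 15108 * U ^ 2 * V + 5748 * U * V ^ 2 - 76104 * V ^ 3) * η * s1 U V +
    (3180 * U ^ 4 - 3652 * U ^ 3 * V - 170184 * U ^ 2 * V ^ 2 - 77944 * U * V ^ 3 -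
      1352560 * V ^ 4) * s1 U V ^ 2
def s2 (U V : R) : R := -24 * U - 76 * V
def c2 (U V : R) : R := -20 * U ^ 2 + 194 * U * V - 1632 * V ^ 2
def w2 (U V η : R) : R :=
  2 * η ^ 3 + 2 * c2 U V * η ^ 2 +
    (936 * U ^ 3 - 19068 * U ^ 2 * V - 40344 * U * V ^ 2 + 93176 * V ^ 3) * η * s2 U V +
    (-320 * U ^ 4 + 36448 * U ^ 3 * V - 162924 * U ^ 2 * V ^ 2 - 1327580 * U * V ^ 3 +
      1906080 * V ^ 4) * s2 U V ^ 2

/-- the Sylvester matrix (degrees 3 and 4) -/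
noncomputable def syl (P Q : R[X]) : Matrix (Fin 7) (Fin 7) R := Matrix.of fun i j =>
  if (i : ℕ) < 4 then (if (i : ℕ) ≤ j then P.coeff ((j : ℕ) - i) else 0)
  else (if (i : ℕ) - 4 ≤ j then Q.coeff ((j : ℕ) - (i - 4)) else 0)

/-- `I` and `J` as polynomials in `t` -/
noncomputable def pI (U V : R) : R[X] := fI (C U) (C V) X
noncomputable def pJ (U V : R) : R[X] := fJ (C U) (C V) X

/-- the resultant -/
noncomputable def Ru (U V : R) : R := (syl (pI U V) (pJ U V)).det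
end

/-- the bound for the small primes and the modulus (never to be evaluated) -/
noncomputable def QQ : ℕ := (Ru (1 : ℤ) 0).natAbs + 10000000
noncomputable def MM : ℤ := 1728 * (Nat.factorial QQ : ℤ)

/-- the parameters `(U, V, z)`; the base is `(4, -1, 5)` -/
abbrev Par : Type := ℤ × ℤ × ℤ
def Cong (w : Par) : Prop := MM ∣ w.1 - 4 ∧ MM ∣ w.2.1 + 1 ∧ MM ∣ w.2.2 - 5

def cA (w : Par) : ℤ := (-(fI w.1 w.2.1 (w.2.2 ^ 2))) / 48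
def cB (w : Par) : ℤ := (-(fJ w.1 w.2.1 (w.2.2 ^ 2))) / 1728

/-- the members of size `m` -/
noncomputable def ww (T : ℕ × ℕ × ℕ) : Par :=
  (4 + MM * (T.1 : ℤ), -1 + MM * (T.2.1 : ℤ), 5 + MM * (T.2.2 : ℤ))
def Box (m : ℕ) : Finset (ℕ × ℕ × ℕ) :=
  Finset.range m ×ˢ (Finset.range m ×ˢ Finset.range (m ^ 2))

/-- the ten points: `px / pv²` -/
def px (w : Par) (j : Fin 10) : ℤ :=
  if h : (j : ℕ) < 7 then
    3 * xN w.1 w.2.1 w.2.2 (xx w.1 w.2.1 ⟨j, by omega⟩) 1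
      (yv w.1 w.2.1 (w.2.2 ^ 2) (xx w.1 w.2.1 ⟨j, by omega⟩))
  else if (j : ℕ) = 7 then
    3 * (3 * q3 w.1 w.2.1 ^ 2 - 8 * q4 (w.2.2 ^ 2) * q2 w.1 w.2.1 (w.2.2 ^ 2))
  else if (j : ℕ) = 8 then
    3 * xN w.1 w.2.1 w.2.2 (w.2.2 - c1 w.1 w.2.1) (s1 w.1 w.2.1)
      (w1 w.1 w.2.1 (w.2.2 - c1 w.1 w.2.1))
  else
    3 * xN w.1 w.2.1 w.2.2 (w.2.2 - c2 w.1 w.2.1) (s2 w.1 w.2.1)
      (w2 w.1 w.2.1 (w.2.2 - c2 w.1 w.2.1))
def pv (w : Par) (j : Fin 10) : ℤ :=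
  if (j : ℕ) < 7 then 6 else if (j : ℕ) = 7 then 24 * w.2.2
  else if (j : ℕ) = 8 then 6 * s1 w.1 w.2.1 else 6 * s2 w.1 w.2.1

/-! ## General rows -/

/-- RANKQ: the same statement as `Pool.Helper17.R8.ST_RANKQ` (helper13). -/
def ST_RANKQ : Prop := ∀ (n : ℕ) (A B : ℤ) (X v : Fin n → ℤ), (∀ i, v i ≠ 0) →
  (∀ i, ∃ y : ℚ, y ^ 2 = ((X i : ℚ) / (v i : ℚ) ^ 2) ^ 3 + (A : ℚ) * ((X i : ℚ) / (v i : ℚ) ^ 2) +
    (B : ℚ)) → 4 * A ^ 3 + 27 * B ^ 2 ≠ 0 →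
  ∀ p : ℕ, (∀ t : ZMod p, t ^ 3 + (A : ZMod p) * t + (B : ZMod p) ≠ 0) →
  (∀ S : Finset (Fin n), S.Nonempty → ∃ (q : ℕ) (e : ℤ), q.Prime ∧
    ((e ^ 3 + A * e + B : ℤ) : ZMod q) = 0 ∧ ((3 * e ^ 2 + A : ℤ) : ZMod q) ≠ 0 ∧
    ¬ IsSquare (∏ i ∈ S, ((X i - e * v i ^ 2 : ℤ) : ZMod q))) →
  (n : Cardinal) ≤ Module.rank ℤ ((cur A B).toAffine).Point

/-- PT1.  With `ξ = η / ζ`, `y = w / ζ²`, `a = W²`, `x₀ = 4 x`, the ordinate is `Y = Y₀ / 8`,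
`Y₀ = (4 a ξ + b₃) y + W (4 a ξ³ + 3 b₃ ξ² + 2 b₂ ξ + b₁)`. -/
def ST_PT1 : Prop := ∀ (W b3 b2 b1 b0 A B η ζ w : ℚ),
  48 * A = -(12 * W ^ 2 * b0 - 3 * b3 * b1 + b2 ^ 2) →
  1728 * B = -(72 * W ^ 2 * b2 * b0 + 9 * b3 * b2 * b1 - 27 * W ^ 2 * b1 ^ 2 -
    27 * b0 * b3 ^ 2 - 2 * b2 ^ 3) →
  w ^ 2 = W ^ 2 * η ^ 4 + b3 * η ^ 3 * ζ + b2 * η ^ 2 * ζ ^ 2 + b1 * η * ζ ^ 3 + b0 * ζ ^ 4 →
  ζ ≠ 0 → ∃ Y : ℚ, Y ^ 2 =
    ((6 * W ^ 2 * η ^ 2 + 3 * b3 * η * ζ + b2 * ζ ^ 2 + 6 * w * W) / (12 * ζ ^ 2)) ^ 3 +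
    A * ((6 * W ^ 2 * η ^ 2 + 3 * b3 * η * ζ + b2 * ζ ^ 2 + 6 * w * W) / (12 * ζ ^ 2)) + B

/-- PT2: the other point at infinity, `Y = (b3³ - 4 W² b2 b3 + 8 W⁴ b1) / (64 W³)`. -/
def ST_PT2 : Prop := ∀ (W b3 b2 b1 b0 A B : ℚ),
  48 * A = -(12 * W ^ 2 * b0 - 3 * b3 * b1 + b2 ^ 2) →
  1728 * B = -(72 * W ^ 2 * b2 * b0 + 9 * b3 * b2 * b1 - 27 * W ^ 2 * b1 ^ 2 -
    27 * b0 * b3 ^ 2 - 2 * b2 ^ 3) → W ≠ 0 → ∃ Y : ℚ, Y ^ 2 =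
    ((3 * b3 ^ 2 - 8 * W ^ 2 * b2) / (48 * W ^ 2)) ^ 3 +
    A * ((3 * b3 ^ 2 - 8 * W ^ 2 * b2) / (48 * W ^ 2)) + B

/-! ## The family -/

/-- REL: `fI`, `fJ` at `w` are congruent to their values at the base modulo `MM`. -/
def ST_REL : Prop := ∀ w : Par, Cong w →
  48 * cA w = -(fI w.1 w.2.1 (w.2.2 ^ 2)) ∧ 1728 * cB w = -(fJ w.1 w.2.1 (w.2.2 ^ 2)) ∧
  ((QQ.factorial : ℕ) : ℤ) ∣ cA w + 408862721905456359817 ∧
  ((QQ.factorial : ℕ) : ℤ) ∣ cB w - 3499921804209042887289278309476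

/-- PTS (from PT1, PT2, REL), `W = 2 z`.  Identities (ring): for each `i`,
`yv² = q4 x_i⁴ + q3 x_i³ + q2 x_i² + q1 x_i + q0`; `w1² = q4 η⁴ + q3 η³ s1 + q2 η² s1² + q1 η s1³ +
q0 s1⁴` for `η = z - c1`, `t = z²`; the same for `s2, c2, w2`.  At the base
`pv = (6, 6, 6, 6, 6, 6, 6, 120, -456, -120)` (not zero modulo 11). -/
def ST_PTS : Prop := ∀ w : Par, Cong w → ∀ j : Fin 10, pv w j ≠ 0 ∧
  ∃ y : ℚ, y ^ 2 = ((px w j : ℚ) / (pv w j : ℚ) ^ 2) ^ 3 +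
    (cA w : ℚ) * ((px w j : ℚ) / (pv w j : ℚ) ^ 2) + (cB w : ℚ)

/-- CERT (from REL, PTS, RANKQ).  `gcd(A, B) = 1` at the base; no root modulo 13; the characters
`(q, e)`: signs of `px j - e (pv j)²`, `j = 0, .., 9`:
`(17, 10): (+,-,-,-,+,+,+,+,-,-)`; `(23, 20): (+,-,-,-,-,-,+,-,-,+)`;
`(31, 8): (-,-,+,-,-,-,+,+,-,-)`; `(37, 32): (-,+,+,+,-,+,+,-,-,-)`;
`(43, 3): (-,-,+,-,+,+,-,-,+,+)`; `(43, 9): (-,+,-,+,-,+,-,-,+,+)`;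
`(53, 19): (+,+,+,+,+,-,-,+,+,-)`; `(59, 18): (+,-,-,+,+,-,-,+,-,-)`;
`(61, 45): (-,+,+,+,-,-,+,+,-,+)`; `(79, 40): (+,-,+,-,+,+,-,-,+,+)`
(nonsingular, independent over `𝔽₂`).  Compare `Helper46/RS/CERTS.lean`. -/
def ST_CERT : Prop := ∀ w : Par, Cong w →
  4 * cA w ^ 3 + 27 * cB w ^ 2 ≠ 0 ∧
  (∀ q : ℕ, q.Prime → q ≤ QQ → ¬ ((q : ℤ) ∣ cA w ∧ (q : ℤ) ∣ cB w)) ∧
  (10 : Cardinal) ≤ Module.rank ℤ ((cur (cA w) (cB w)).toAffine).Point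

/-- BND (from REL): weights, `|U|, |V| ≤ C m`, `|z| ≤ C m²`. -/
def ST_BND : Prop := ∃ C : ℤ, 1 ≤ C ∧ ∀ m : ℕ, 1 ≤ m → ∀ T ∈ Box m,
  |cA (ww T)| ≤ C * (m : ℤ) ^ 12 ∧ |cB (ww T)| ≤ C * (m : ℤ) ^ 18

/-! ## Sieve -/

/-- RES: the vector `(1, t, .., t⁶)` (adjugate). -/
def ST_RES : Prop := ∀ (P Q : ℤ[X]), P.natDegree ≤ 3 → Q.natDegree ≤ 4 → ∀ q t : ℤ,
  q ∣ P.eval t → q ∣ Q.eval t → q ∣ (syl P Q).det

/-- R10: `Ru 1 0` is not zero (modulo 5; at `(1, 0)`: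
`pI = 48 t³ + 190224 t² - 6687366144 t + 22334942396416`,
`pJ = -210816 t⁴ + 3569606784 t³ - 24512213274624 t² + 98794272184860672 t -
211389738498834563072`; exhibit the inverse of the matrix modulo 5). -/
def ST_R10 : Prop := Ru (1 : ℤ) 0 ≠ 0

/-- RDEG: `P = Ru (X 0) (X 1)` over `ZMod q`; `Ru 1 0` is not zero modulo `q > QQ ≥ |Ru 1 0|`
(from R10); crude degrees: the entries at most 18, the determinant at most 126. -/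
def ST_RDEG : Prop := ∀ q : ℕ, q.Prime → QQ < q → ∃ P : MvPolynomial (Fin 2) (ZMod q),
  P ≠ 0 ∧ P.totalDegree ≤ 1000 ∧ ∀ u : Fin 2 → ZMod q, MvPolynomial.eval u P = Ru (u 0) (u 1)

/-- RNZ: `Ru` at the base is not zero modulo 5 (`(4, -1) = (4, 4)`: at `(4, -1)`
`pI = 48 t³ + 32016384 t² - 5127096759496704 t + 19625538828860881698816`,
`pJ = -6476544 t⁴ + 124627573886976 t³ - 963751878721484292096 t² + 3701602557496557025543323648 t -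
6047957417134820546263895903305728`), and `|Ru| ≤ C m ^ 1000` (crude). -/
def ST_RNZ : Prop := ∃ C : ℕ, 1 ≤ C ∧ ∀ m : ℕ, 1 ≤ m → ∀ T ∈ Box m,
  Ru (ww T).1 (ww T).2.1 ≠ 0 ∧ |Ru (ww T).1 (ww T).2.1| ≤ C * (m : ℤ) ^ 1000

open Classical in
/-- SVS (from REL, RES, RDEG), small primes.  `q ∣ Ru (U, V)`: at most `1000 q` residues of `(U, V)`
(Schwartz-Zippel, `MvPolynomial.schwartz_zippel_totalDegree`), each taken at most
`(m / q + 1)² ≤ (2 m / q)²` times; for each at most `6 (m² / q + 1) ≤ 12 m² / q` values of `z`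
(`fI` in `z` modulo `q` has degree 6, leading coefficient 48). -/
def ST_SVS : Prop := ∀ m q : ℕ, q.Prime → QQ < q → q ≤ m →
  ((Box m).filter (fun T => (q : ℤ) ∣ cA (ww T) ∧ (q : ℤ) ∣ cB (ww T))).card * q ^ 2 ≤
    1000000 * m ^ 4

open Classical in
/-- SVL (from REL, RES, RNZ), large primes: at most `K` primes `q > m` divide `Ru ≠ 0` (`m ≥ 2`);
for each at most `6 (m² / q + 1) ≤ 12 m` values of `z`. -/
def ST_SVL : Prop := ∃ K : ℕ, ∀ m : ℕ, 2 ≤ m →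
  ((Box m).filter (fun T => ∃ q : ℕ, q.Prime ∧ m < q ∧ QQ < q ∧ (q : ℤ) ∣ cA (ww T) ∧
    (q : ℤ) ∣ cB (ww T))).card ≤ K * m ^ 3

open Classical in
/-- SIEVE (from SVS, SVL): `∑_{q > QQ} 10⁶ m⁴ / q² ≤ m⁴ / 10`. -/
def ST_SIEVE : Prop := ∃ m0 : ℕ, ∀ m : ℕ, m0 ≤ m →
  2 * ((Box m).filter (fun T => ∃ q : ℕ, q.Prime ∧ QQ < q ∧ (q : ℤ) ∣ cA (ww T) ∧
    (q : ℤ) ∣ cB (ww T))).card ≤ m ^ 4

/-! ## Collisions -/

/-- CURVE (as `Pool.Helper17.R8.ST_CURVE`, degrees 3 and 4).  By a dimension count (`4 + 5 > 8`) there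
are `d, n` not all zero with `X D' = N'`, `D' = d₀ + d₁ f' + d₂ g' + d₃ f'²`,
`N' = n₀ + n₁ f' + n₂ g' + n₃ f'² + n₄ f' g'` (the degrees `0, 3, 4, 6, 7` are distinct, so `d ≠ 0`).
On `S`: `t' D(t) = N(t)` with the same combinations `D ≠ 0`, `N` of `f`, `g`.  At least 34 values of
`t` occur (at most 3 values of `t'` for each `t`), so `D³ f'(N / D) = D³ f` (degree 21) identically, hence
`D ∣ N` (divide by the gcd), `N = ρ D`, `f'(ρ) = f`, `ρ` is linear, with leading coefficient 1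
(`a³ = 1`); `g'(ρ) = g` (values at the `t` with `D(t) ≠ 0`). -/
def ST_CURVE : Prop := ∀ f f' g g' : ℚ[X], f.natDegree = 3 → f'.natDegree = 3 →
  g.natDegree = 4 → g'.natDegree = 4 → f.leadingCoeff = f'.leadingCoeff →
  ∀ S : Finset (ℚ × ℚ), (∀ p ∈ S, f.eval p.1 = f'.eval p.2 ∧ g.eval p.1 = g'.eval p.2) →
  100 ≤ S.card → ∃ β : ℚ, f'.comp (X + C β) = f ∧ g'.comp (X + C β) = g ∧
    ∃ p ∈ S, p.2 = p.1 + β

/-- INJ (LIN: linear approximation modulo `11 h`).  `p = 11`.  If `11^k` divides `U' - U`, `V' - V`, `β`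
then `11^(k+1)` does: `fI(U', V', τ + β) - fI(U, V, τ) ≡ L (U' - U, V' - V, β)` modulo `11^(k+1)` with the
rows `L` modulo 11 for `τ = 0, 1, 2`: `(0, 10, 8)`, `(10, 3, 6)`, `(5, 3, 6)`, determinant `7`.
(`L` = the partial derivatives at `(4, -1, τ)` modulo 11.) -/
def ST_INJ : Prop := ∀ w w' : Par, Cong w → Cong w' → ∀ β : ℤ, (11 : ℤ) ∣ β →
  (∀ τ : ℤ, fI w'.1 w'.2.1 (τ + β) = fI w.1 w.2.1 τ) → w.1 = w'.1 ∧ w.2.1 = w'.2.1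

open Classical in
/-- PAIR (from REL, CURVE, INJ): for `(U, V) ≠ (U', V')` less than 100 pairs `(z, z')` (`t = z²`, `z > 0`);
for equal `(U, V)` at most 3 values of `z'` for each `z`.  (`e2 ≡ -11244` modulo 11, not zero;
`β = z'² - z²` is divisible by 11.) -/
def ST_PAIR : Prop := ∀ m : ℕ, 1 ≤ m →
  ((Box m ×ˢ Box m).filter (fun p => cA (ww p.1) = cA (ww p.2) ∧
    cB (ww p.1) = cB (ww p.2))).card ≤ 103 * m ^ 4

/-! ## The theorem -/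

/-- FIN (from CERT, BND, SIEVE, PAIR, ST_GEN).  `m = ⌊N^(1/3)⌋`, `N' = m³`: the good members (half
of `Box m`, `gcd(A, B) = 1`) have at least `(m⁴ / 2)² / (103 m⁴)` different `(A, B)`, all in `RS 10 C N`;
ST_GEN with `e = 4 / 3`. -/
def ST_FIN : Prop := ∃ c : ℝ, 0 < c ∧ ∃ H₀ : ℝ, ∀ H : ℝ, H₀ ≤ H →
  c * H ^ ((1 : ℝ) / 9) ≤ (NR 10 H : ℝ)

end Pool.Helper70.RT
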