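import Mathlib
import Pool.Agent.Helper70.RT.Sheet

/-! # Row INJ (rank ten) -/

set_option autoImplicit false

namespace Pool.Helper70.RT

namespace S70

/-- first order expansions modulo 11 -/
structure Q (a b c F F' v l m n : ℤ) : Prop where
  h0 : (11 : ℤ) ∣ F - v
  h1 : (11 : ℤ) ∣ F' - v
  h2 : ∃ D E G : ℤ, F' - F = D * a + E * b + G * c ∧ (11 : ℤ) ∣ D - l ∧ (11 : ℤ) ∣ E - m ∧
    (11 : ℤ) ∣ G - n

theorem Q.add {a b c F F' v l m n F2 F2' v2 l2 m2 n2 : ℤ} (h : Q a b c F F' v l m n)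
    (k : Q a b c F2 F2' v2 l2 m2 n2) :
    Q a b c (F + F2) (F' + F2') (v + v2) (l + l2) (m + m2) (n + n2) := by
  obtain ⟨h0, h1, D, E, G, h3, h4, h5, h6⟩ := h
  obtain ⟨k0, k1, D2, E2, G2, k3, k4, k5, k6⟩ := k
  refine ⟨?_, ?_, D + D2, E + E2, G + G2, ?_, ?_, ?_, ?_⟩
  · have := dvd_add h0 k0
    have e : F + F2 - (v + v2) = (F - v) + (F2 - v2) := by ring
    rw [e]; exact this
  · have := dvd_add h1 k1
    have e : F' + F2' - (v + v2) = (F' - v) + (F2' - v2) := by ring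
    rw [e]; exact this
  · linear_combination h3 + k3
  · have e : D + D2 - (l + l2) = (D - l) + (D2 - l2) := by ring
    rw [e]; exact dvd_add h4 k4
  · have e : E + E2 - (m + m2) = (E - m) + (E2 - m2) := by ring
    rw [e]; exact dvd_add h5 k5
  · have e : G + G2 - (n + n2) = (G - n) + (G2 - n2) := by ring
    rw [e]; exact dvd_add h6 k6

theorem Q.const {a b c : ℤ} (v : ℤ) : Q a b c v v v 0 0 0 := by
  refine ⟨by simp, by simp, 0, 0, 0, by ring, by simp, by simp, by simp⟩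

theorem Q.mul {a b c F F' v l m n F2 F2' v2 l2 m2 n2 : ℤ} (h : Q a b c F F' v l m n)
    (k : Q a b c F2 F2' v2 l2 m2 n2) :
    Q a b c (F * F2) (F' * F2') (v * v2) (l * v2 + v * l2) (m * v2 + v * m2)
      (n * v2 + v * n2) := by
  obtain ⟨h0, h1, D, E, G, h3, h4, h5, h6⟩ := h
  obtain ⟨k0, k1, D2, E2, G2, k3, k4, k5, k6⟩ := k
  refine ⟨?_, ?_, D * F2' + F * D2, E * F2' + F * E2, G * F2' + F * G2, ?_, ?_, ?_, ?_⟩
  · have e : F * F2 - v * v2 = (F - v) * F2 + v * (F2 - v2) := by ring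
    rw [e]; exact dvd_add (h0.mul_right _) (k0.mul_left _)
  · have e : F' * F2' - v * v2 = (F' - v) * F2' + v * (F2' - v2) := by ring
    rw [e]; exact dvd_add (h1.mul_right _) (k1.mul_left _)
  · linear_combination F2' * h3 + F * k3
  · have e : D * F2' + F * D2 - (l * v2 + v * l2) =
        (D - l) * F2' + l * (F2' - v2) + ((F - v) * D2 + v * (D2 - l2)) := by ring
    rw [e]
    exact dvd_add (dvd_add (h4.mul_right _) (k1.mul_left _))
      (dvd_add (h0.mul_right _) (k4.mul_left _))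
  · have e : E * F2' + F * E2 - (m * v2 + v * m2) =
        (E - m) * F2' + m * (F2' - v2) + ((F - v) * E2 + v * (E2 - m2)) := by ring
    rw [e]
    exact dvd_add (dvd_add (h5.mul_right _) (k1.mul_left _))
      (dvd_add (h0.mul_right _) (k5.mul_left _))
  · have e : G * F2' + F * G2 - (n * v2 + v * n2) =
        (G - n) * F2' + n * (F2' - v2) + ((F - v) * G2 + v * (G2 - n2)) := by ring
    rw [e]
    exact dvd_add (dvd_add (h6.mul_right _) (k1.mul_left _))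
      (dvd_add (h0.mul_right _) (k6.mul_left _))

theorem Q.neg {a b c F F' v l m n : ℤ} (h : Q a b c F F' v l m n) :
    Q a b c (-F) (-F') (-v) (-l) (-m) (-n) := by
  obtain ⟨h0, h1, D, E, G, h3, h4, h5, h6⟩ := h
  refine ⟨?_, ?_, -D, -E, -G, by linear_combination -h3, ?_, ?_, ?_⟩
  · have e : -F - -v = -(F - v) := by ring
    rw [e]; exact (dvd_neg).2 h0
  · have e : -F' - -v = -(F' - v) := by ring
    rw [e]; exact (dvd_neg).2 h1
  · have e : -D - -l = -(D - l) := by ring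
    rw [e]; exact (dvd_neg).2 h4
  · have e : -E - -m = -(E - m) := by ring
    rw [e]; exact (dvd_neg).2 h5
  · have e : -G - -n = -(G - n) := by ring
    rw [e]; exact (dvd_neg).2 h6

theorem Q.sub {a b c F F' v l m n F2 F2' v2 l2 m2 n2 : ℤ} (h : Q a b c F F' v l m n)
    (k : Q a b c F2 F2' v2 l2 m2 n2) :
    Q a b c (F - F2) (F' - F2') (v - v2) (l - l2) (m - m2) (n - n2) := by
  have := h.add k.neg
  simpa [sub_eq_add_neg] using this

/-- powers: only the exact shape is recorded -/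
def dp (v l : ℤ) : ℕ → ℤ
  | 0 => 0
  | k + 1 => dp v l k * v + v ^ k * l

theorem Q.pow {a b c F F' v l m n : ℤ} (h : Q a b c F F' v l m n) (k : ℕ) :
    Q a b c (F ^ k) (F' ^ k) (v ^ k) (dp v l k) (dp v m k) (dp v n k) := by
  induction k with
  | zero => simpa [dp] using (Q.const (a := a) (b := b) (c := c) 1)
  | succ k ih =>
    have := ih.mul h
    rw [pow_succ, pow_succ, pow_succ]
    exact this

theorem lin0 {U V t U' V' t' : ℤ} (h1 : (11 : ℤ) ∣ U - 4) (h1' : (11 : ℤ) ∣ U' - 4)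
    (h2 : (11 : ℤ) ∣ V + 1) (h2' : (11 : ℤ) ∣ V' + 1) (s : ℤ) (h3 : (11 : ℤ) ∣ t - s)
    (h3' : (11 : ℤ) ∣ t' - s) :
    Q (U' - U) (V' - V) (t' - t) U U' 4 1 0 0 ∧ Q (U' - U) (V' - V) (t' - t) V V' (-1) 0 1 0 ∧
      Q (U' - U) (V' - V) (t' - t) t t' s 0 0 1 := by
  refine ⟨⟨h1, h1', 1, 0, 0, by ring, by simp, by simp, by simp⟩,
    ⟨by simpa using h2, by simpa using h2', 0, 1, 0, by ring, by simp, by simp, by simp⟩,
    ⟨h3, h3', 0, 0, 1, by ring, by simp, by simp, by simp⟩⟩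

theorem lin (s L M N : ℤ) (hs : (s = 0 ∧ L = 0 ∧ M = 10 ∧ N = 8) ∨
    (s = 1 ∧ L = 10 ∧ M = 3 ∧ N = 6) ∨ (s = 2 ∧ L = 5 ∧ M = 3 ∧ N = 6))
    {U V t U' V' t' : ℤ} (r1 : (11 : ℤ) ∣ U - 4) (r1' : (11 : ℤ) ∣ U' - 4)
    (r2 : (11 : ℤ) ∣ V + 1) (r2' : (11 : ℤ) ∣ V' + 1) (r3 : (11 : ℤ) ∣ t - s)
    (r3' : (11 : ℤ) ∣ t' - s) :
    ∃ D E G : ℤ, fI U' V' t' - fI U V t = D * (U' - U) + E * (V' - V) + G * (t' - t) ∧
      (11 : ℤ) ∣ D - L ∧ (11 : ℤ) ∣ E - M ∧ (11 : ℤ) ∣ G - N := by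
  obtain ⟨hU, hV, hT⟩ := lin0 r1 r1' r2 r2' s r3 r3'
  have key : ∃ v l m n : ℤ, Q (U' - U) (V' - V) (t' - t) (fI U V t) (fI U' V' t') v l m n ∧
      (11 : ℤ) ∣ l - L ∧ (11 : ℤ) ∣ m - M ∧ (11 : ℤ) ∣ n - N := by
    apply Exists.intro
    apply Exists.intro
    apply Exists.intro
    apply Exists.intro
    apply And.intro
    · unfold fI q0 q1 q2 q3 q4 h3 h2 h1 h0 g0 e3 e2
      repeat first
        | exact hU
        | exact hV
        | exact hT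
        | apply Q.add
        | apply Q.sub
        | apply Q.mul
        | apply Q.neg
        | apply Q.pow
        | apply Q.const
    · rcases hs with ⟨rfl, rfl, rfl, rfl⟩ | ⟨rfl, rfl, rfl, rfl⟩ | ⟨rfl, rfl, rfl, rfl⟩
      · decide +kernel
      · decide +kernel
      · decide +kernel
  obtain ⟨v, l, m, n, ⟨_, _, D, E, G, k3, k4, k5, k6⟩, hl, hm, hn⟩ := key
  refine ⟨D, E, G, k3, ?_, ?_, ?_⟩
  · have e : D - L = (D - l) + (l - L) := by ring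
    rw [e]; exact dvd_add k4 hl
  · have e : E - M = (E - m) + (m - M) := by ring
    rw [e]; exact dvd_add k5 hm
  · have e : G - N = (G - n) + (n - N) := by ring
    rw [e]; exact dvd_add k6 hn

theorem cramer {a b c D0 E0 G0 D1 E1 G1 D2 E2 G2 : ℤ}
    (h0 : D0 * a + E0 * b + G0 * c = 0) (h1 : D1 * a + E1 * b + G1 * c = 0)
    (h2 : D2 * a + E2 * b + G2 * c = 0)
    (d0 : (11 : ℤ) ∣ D0 - 0) (e0 : (11 : ℤ) ∣ E0 - 10) (g0 : (11 : ℤ) ∣ G0 - 8)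
    (d1 : (11 : ℤ) ∣ D1 - 10) (e1 : (11 : ℤ) ∣ E1 - 3) (g1 : (11 : ℤ) ∣ G1 - 6)
    (d2 : (11 : ℤ) ∣ D2 - 5) (e2 : (11 : ℤ) ∣ E2 - 3) (g2 : (11 : ℤ) ∣ G2 - 6) :
    a = 0 ∧ b = 0 := by
  have hdet : D0 * (E1 * G2 - E2 * G1) - E0 * (D1 * G2 - D2 * G1) + G0 * (D1 * E2 - D2 * E1) ≠ 0 := by
    obtain ⟨x0, hx0⟩ := d0
    obtain ⟨y0, hy0⟩ := e0
    obtain ⟨z0, hz0⟩ := g0
    obtain ⟨x1, hx1⟩ := d1
    obtain ⟨y1, hy1⟩ := e1
    obtain ⟨z1, hz1⟩ := g1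
    obtain ⟨x2, hx2⟩ := d2
    obtain ⟨y2, hy2⟩ := e2
    obtain ⟨z2, hz2⟩ := g2
    have q0 : D0 = 11 * x0 := by linarith
    have q1 : E0 = 10 + 11 * y0 := by linarith
    have q2 : G0 = 8 + 11 * z0 := by linarith
    have q3 : D1 = 10 + 11 * x1 := by linarith
    have q4 : E1 = 3 + 11 * y1 := by linarith
    have q5 : G1 = 6 + 11 * z1 := by linarith
    have q6 : D2 = 5 + 11 * x2 := by linarith
    have q7 : E2 = 3 + 11 * y2 := by linarith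
    have q8 : G2 = 6 + 11 * z2 := by linarith
    intro h
    have hd : (11 : ℤ) ∣ D0 * (E1 * G2 - E2 * G1) - E0 * (D1 * G2 - D2 * G1) +
        G0 * (D1 * E2 - D2 * E1) - (0 * (3 * 6 - 3 * 6) - 10 * (10 * 6 - 5 * 6) +
        8 * (10 * 3 - 5 * 3)) := by
      rw [q0, q1, q2, q3, q4, q5, q6, q7, q8]
      ring_nf
      omega
    rw [h] at hd
    omega
  constructor
  · have : (D0 * (E1 * G2 - E2 * G1) - E0 * (D1 * G2 - D2 * G1) + G0 * (D1 * E2 - D2 * E1)) * a = 0 := by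
      linear_combination (E1 * G2 - E2 * G1) * h0 - (E0 * G2 - E2 * G0) * h1 +
        (E0 * G1 - E1 * G0) * h2
    exact (mul_eq_zero.1 this).resolve_left hdet
  · have : (D0 * (E1 * G2 - E2 * G1) - E0 * (D1 * G2 - D2 * G1) + G0 * (D1 * E2 - D2 * E1)) * b = 0 := by
      linear_combination -(D1 * G2 - D2 * G1) * h0 + (D0 * G2 - D2 * G0) * h1 -
        (D0 * G1 - D1 * G0) * h2
    exact (mul_eq_zero.1 this).resolve_left hdet

end S70

theorem st_INJ : ST_INJ := by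
  intro w w' hw hw' β hβ h
  have hM : (11 : ℤ) ∣ MM := by
    have h11 : (11 : ℕ) ∣ Nat.factorial QQ :=
      Nat.dvd_factorial (by norm_num) (by unfold QQ; omega)
    exact (Int.natCast_dvd_natCast.2 h11).mul_left _
  obtain ⟨a1, a2, a3⟩ := hw
  obtain ⟨b1, b2, b3⟩ := hw'
  have A1 := hM.trans a1
  have A2 := hM.trans a2
  have B1 := hM.trans b1
  have B2 := hM.trans b2
  have step : ∀ s L M N : ℤ, ((s = 0 ∧ L = 0 ∧ M = 10 ∧ N = 8) ∨
      (s = 1 ∧ L = 10 ∧ M = 3 ∧ N = 6) ∨ (s = 2 ∧ L = 5 ∧ M = 3 ∧ N = 6)) →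
      ∃ D E G : ℤ, D * (w'.1 - w.1) + E * (w'.2.1 - w.2.1) + G * β = 0 ∧
      (11 : ℤ) ∣ D - L ∧ (11 : ℤ) ∣ E - M ∧ (11 : ℤ) ∣ G - N := by
    intro s L M N hs
    obtain ⟨D, E, G, k, k1, k2, k3⟩ := S70.lin s L M N hs A1 B1 A2 B2 (t := s) (t' := s + β)
      (by simp) (by simpa using hβ)
    refine ⟨D, E, G, ?_, k1, k2, k3⟩
    have e := h s
    linear_combination e - k
  obtain ⟨D0, E0, G0, k0, d0, e0, g0⟩ := step 0 0 10 8 (Or.inl ⟨rfl, rfl, rfl, rfl⟩)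
  obtain ⟨D1, E1, G1, k1, d1, e1, g1⟩ := step 1 10 3 6 (Or.inr (Or.inl ⟨rfl, rfl, rfl, rfl⟩))
  obtain ⟨D2, E2, G2, k2, d2, e2, g2⟩ := step 2 5 3 6 (Or.inr (Or.inr ⟨rfl, rfl, rfl, rfl⟩))
  obtain ⟨r1, r2⟩ := S70.cramer k0 k1 k2 d0 e0 g0 d1 e1 g1 d2 e2 g2
  constructor
  · linarith
  · linarith

end Pool.Helper70.RT
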